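import Pool.Agent.H564.LD.Noise

/-! Least primes in progressions: from one prime in every class to many primes. -/

set_option autoImplicit false

namespace Pool.Agent.H564.CH

open Finset Filter Topology
open Pool.Agent.H564.LD (cls cls_card)

/-- `p_T(d) < d^(θ+ε)` for all `ε > 0` and all large `d`: every reduced class modulo `d` contains a prime
`a + k d < d^(θ+ε)` which belongs to `T`. Chowla's conjecture is `Rep univ 1`. -/
def Rep (T : Set ℕ) (θ : ℝ) : Prop :=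
  ∀ ε : ℝ, 0 < ε → ∃ D : ℕ, ∀ d : ℕ, D ≤ d → ∀ a : ℕ, 1 ≤ a → a < d → Nat.Coprime a d →
    ∃ k : ℕ, Nat.Prime (a + k * d) ∧ a + k * d ∈ T ∧ ((a + k * d : ℕ) : ℝ) < (d : ℝ) ^ (θ + ε)

/-- `∑_{p ≤ N, p ≡ l (d)} w(p) ≥ N^(τ-ε)/d` for all `ε > 0`, all large `N`, all `d ≤ N^(ρ-ε)` and all `l` prime to
`d` -/
def Full (w : ℕ → ℝ) (ρ τ : ℝ) : Prop :=
  ∀ ε : ℝ, 0 < ε → ∀ᶠ N : ℕ in atTop, ∀ d : ℕ, 1 ≤ d → (d : ℝ) ≤ (N : ℝ) ^ (ρ - ε) →
    ∀ l : ℕ, Nat.Coprime l d → (N : ℝ) ^ (τ - ε) / d ≤ ∑ p ∈ cls (N + 1) d l, w p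

/-- the reduced classes modulo `d k` above the class `a` modulo `d` -/
theorem lifts {d k a : ℕ} (hk : k.Prime) (ha : a.Coprime d) :
    k - 1 ≤ ((range k).filter fun j => Nat.Coprime (a + j * d) (d * k)).card := by
  have h1 : ((range k).filter fun j => ¬ Nat.Coprime (a + j * d) (d * k)).card ≤ 1 := by
    rw [card_le_one]
    have aux : ∀ i j : ℕ, i < j → j < k → ¬ Nat.Coprime (a + i * d) (d * k) →
        ¬ Nat.Coprime (a + j * d) (d * k) → False := by
      intro i j hij hj h1 h2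
      have hco : ∀ m : ℕ, Nat.Coprime (a + m * d) d := fun m => by
        rw [Nat.coprime_add_mul_right_left]
        exact ha
      have hdvd : ∀ m : ℕ, ¬ Nat.Coprime (a + m * d) (d * k) → k ∣ a + m * d := by
        intro m hm
        by_contra h
        exact hm (Nat.Coprime.mul_right (hco m) ((hk.coprime_iff_not_dvd.2 h).symm))
      have e1 := hdvd i h1
      have e2 := hdvd j h2
      have e3 : k ∣ (j - i) * d := by
        have := Nat.dvd_sub e2 e1
        have e4 : a + j * d - (a + i * d) = (j - i) * d := by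
          rw [Nat.sub_mul]
          omega
        rwa [e4] at this
      rcases (Nat.Prime.dvd_mul hk).1 e3 with h3 | h3
      · exact absurd (Nat.le_of_dvd (by omega) h3) (by omega)
      · have h4 : k ∣ a := (Nat.dvd_add_left (h3.mul_left i)).1 e1
        have h5 := Nat.dvd_gcd h4 h3
        rw [ha] at h5
        exact hk.one_lt.ne' (Nat.dvd_one.1 h5)
    intro i hi j hj
    rw [mem_filter, mem_range] at hi hj
    rcases lt_trichotomy i j with h | h | h
    · exact (aux i j h hj.1 hi.2 hj.2).elim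
    · exact h
    · exact (aux j i h hi.1 hj.2 hi.2).elim
  have h2 := card_filter_add_card_filter_not (s := range k)
    (fun j => Nat.Coprime (a + j * d) (d * k))
  rw [card_range] at h2
  omega

/-- **Self-improvement.** -/
theorem rep_full {T : Set ℕ} [DecidablePred (· ∈ T)] {θ : ℝ} (hθ : 0 < θ) (h : Rep T θ) :
    Full (fun p => if p ∈ T then 1 else 0) (1 / θ) (1 / θ) := by
  intro ε hε
  set e : ℝ := θ ^ 2 * (ε / 2) with he
  have he0 : 0 < e := by positivity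
  obtain ⟨D, hD⟩ := h e he0
  have t := tendsto_natCast_atTop_atTop (R := ℝ)
  have hb := t.eventually ((tendsto_rpow_atTop (show 0 < ε / 2 by positivity)).eventually_ge_atTop
    (4 * D + 8))
  filter_upwards [hb, eventually_ge_atTop 1] with N hN hN1 d hd1 hdN l hl
  have hNr : (1 : ℝ) ≤ N := by exact_mod_cast hN1
  have hNp : (0 : ℝ) < N := by linarith
  have hd0 : (0 : ℝ) < d := by exact_mod_cast hd1
  set Y : ℝ := (N : ℝ) ^ (1 / (θ + e)) / d with hY
  have hexp : 1 / θ - ε / 2 ≤ 1 / (θ + e) := by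
    have h1 : 1 / θ - 1 / (θ + e) = e / (θ * (θ + e)) := by
      field_simp
      ring
    have h2 : e / (θ * (θ + e)) ≤ ε / 2 := by
      rw [div_le_iff₀ (by positivity)]
      nlinarith [mul_pos (mul_pos hθ he0) hε]
    linarith
  have hYbig : (N : ℝ) ^ (ε / 2) ≤ Y := by
    rw [hY, le_div_iff₀ hd0]
    calc (N : ℝ) ^ (ε / 2) * d ≤ (N : ℝ) ^ (ε / 2) * (N : ℝ) ^ (1 / θ - ε) :=
          mul_le_mul_of_nonneg_left hdN (by positivity)
      _ = (N : ℝ) ^ (1 / θ - ε / 2) := by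
          rw [← Real.rpow_add hNp]
          congr 1
          ring
      _ ≤ _ := Real.rpow_le_rpow_of_exponent_le hNr hexp
  have hDn : (0 : ℝ) ≤ D := Nat.cast_nonneg D
  have hY8 : 8 ≤ Y := by linarith
  -- the prime `k`
  set n : ℕ := ⌊Y / 2⌋₊ with hn
  have hn1 : (n : ℝ) ≤ Y / 2 := Nat.floor_le (by linarith)
  have hn2 : Y / 2 < n + 1 := Nat.lt_floor_add_one _
  have hn0 : n ≠ 0 := by
    intro h0
    rw [h0] at hn2
    push_cast at hn2
    linarith
  obtain ⟨k, hk, hk1, hk2⟩ := Nat.exists_prime_lt_and_le_two_mul n hn0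
  have hkY : (k : ℝ) ≤ Y := by
    have : (k : ℝ) ≤ 2 * n := by exact_mod_cast hk2
    linarith
  have hkn : Y / 2 ≤ k := by
    have : (n : ℝ) + 1 ≤ k := by exact_mod_cast hk1
    linarith
  have hdk0 : 0 < d * k := Nat.mul_pos hd1 hk.pos
  have hdkD : D ≤ d * k := by
    have h1 : (D : ℝ) ≤ k := by linarith
    have h2 : D ≤ k := by exact_mod_cast h1
    exact h2.trans (Nat.le_mul_of_pos_left k hd1)
  have hdk2 : 2 ≤ d * k := hk.two_le.trans (Nat.le_mul_of_pos_left k hd1)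
  have hdkN : ((d * k : ℕ) : ℝ) ^ (θ + e) ≤ N := by
    have h1 : ((d * k : ℕ) : ℝ) ≤ (N : ℝ) ^ (1 / (θ + e)) := by
      push_cast
      rw [hY, le_div_iff₀ hd0] at hkY
      linarith
    calc ((d * k : ℕ) : ℝ) ^ (θ + e) ≤ ((N : ℝ) ^ (1 / (θ + e))) ^ (θ + e) :=
          Real.rpow_le_rpow (Nat.cast_nonneg _) h1 (by linarith)
      _ = N := by
          rw [← Real.rpow_mul hNp.le, one_div, inv_mul_cancel₀ (by linarith), Real.rpow_one]
  -- a prime in every lift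
  have hpr : ∀ j : ℕ, Nat.Coprime (l + j * d) (d * k) → ∃ p ∈ cls (N + 1) d l, p ∈ T ∧
      p ≡ l + j * d [MOD d * k] := by
    intro j hj
    set a : ℕ := (l + j * d) % (d * k) with ha
    have ha1 : a < d * k := Nat.mod_lt _ hdk0
    have haco : Nat.Coprime a (d * k) := by
      have := Nat.ModEq.gcd_eq (Nat.mod_modEq (l + j * d) (d * k))
      rw [Nat.Coprime, ha, this]
      exact hj
    have ha0 : 1 ≤ a := by
      rcases Nat.eq_zero_or_pos a with h0 | h0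
      · rw [h0, Nat.coprime_zero_left] at haco
        omega
      · exact h0
    obtain ⟨m, hm1, hm2, hm3⟩ := hD (d * k) hdkD a ha0 ha1 haco
    have hmod : a + m * (d * k) ≡ l + j * d [MOD d * k] := by
      rw [ha]
      have h1 : (l + j * d) % (d * k) + m * (d * k) ≡ (l + j * d) % (d * k) [MOD d * k] := by
        simp [Nat.ModEq]
      exact h1.trans (Nat.mod_modEq _ _)
    refine ⟨a + m * (d * k), ?_, hm2, hmod⟩
    rw [cls, mem_filter, mem_range]
    refine ⟨?_, hm1, ?_⟩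
    · have h1 : ((a + m * (d * k) : ℕ) : ℝ) < N := hm3.trans_le hdkN
      have h2 : a + m * (d * k) < N := by exact_mod_cast h1
      omega
    · have h1 := hmod.of_mul_right k
      refine h1.trans ?_
      simp [Nat.ModEq]
  classical
  choose! f hf1 hf2 hf3 using hpr
  have hinj : Set.InjOn f ((range k).filter fun j => Nat.Coprime (l + j * d) (d * k)) := by
    intro i hi j hj hij
    rw [mem_coe, mem_filter, mem_range] at hi hj
    have h1 := hf3 i hi.2
    have h2 := hf3 j hj.2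
    rw [hij] at h1
    have h3 : l + i * d ≡ l + j * d [MOD d * k] := h1.symm.trans h2
    have h4 : i * d ≡ j * d [MOD k * d] := by
      rw [mul_comm k d]
      exact Nat.ModEq.add_left_cancel' l h3
    have h5 : i ≡ j [MOD k] := Nat.ModEq.mul_right_cancel' (by omega) h4
    rw [Nat.ModEq, Nat.mod_eq_of_lt hi.1, Nat.mod_eq_of_lt hj.1] at h5
    exact h5
  have hcard : k - 1 ≤ ((cls (N + 1) d l).filter (· ∈ T)).card := by
    refine (lifts hk hl).trans ?_
    refine card_le_card_of_injOn f ?_ hinj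
    intro j hj
    rw [mem_coe, mem_filter] at hj
    rw [mem_coe, mem_filter]
    exact ⟨hf1 j hj.2, hf2 j hj.2⟩
  rw [← sum_filter, sum_const, nsmul_eq_mul, mul_one]
  have hcard' : (k : ℝ) - 1 ≤ (((cls (N + 1) d l).filter (· ∈ T)).card : ℝ) := by
    have h1 : ((k - 1 : ℕ) : ℝ) ≤ (((cls (N + 1) d l).filter (· ∈ T)).card : ℝ) := by
      exact_mod_cast hcard
    rwa [Nat.cast_sub hk.one_le, Nat.cast_one] at h1
  refine le_trans ?_ hcard'
  have hY4 : Y / 4 ≤ (k : ℝ) - 1 := by linarith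
  refine le_trans ?_ hY4
  rw [hY, div_div, mul_comm (d : ℝ) 4, ← div_div]
  refine div_le_div_of_nonneg_right ?_ hd0.le
  rw [le_div_iff₀ (by norm_num)]
  calc (N : ℝ) ^ (1 / θ - ε) * 4 ≤ (N : ℝ) ^ (1 / θ - ε) * (N : ℝ) ^ (ε / 2) := by
        refine mul_le_mul_of_nonneg_left (by linarith) (by positivity)
    _ = (N : ℝ) ^ (1 / θ - ε / 2) := by
        rw [← Real.rpow_add hNp]
        congr 1
        ring
    _ ≤ _ := Real.rpow_le_rpow_of_exponent_le hNr hexp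

/-- many primes give small primes -/
theorem full_rep {w : ℕ → ℝ} {T : Set ℕ} (hT : ∀ p, w p ≠ 0 → p ∈ T) {ρ τ : ℝ} (hρ : 0 < ρ)
    (h : Full w ρ τ) : Rep T (1 / ρ) := by
  intro ε hε
  set θ : ℝ := 1 / ρ with hθ
  have hθ0 : 0 < θ := by positivity
  set e : ℝ := ρ - 1 / (θ + ε / 4) with he
  have he0 : 0 < e := by
    rw [he, sub_pos]
    have : ρ = 1 / θ := by rw [hθ, one_div_one_div]
    rw [this]
    exact one_div_lt_one_div_of_lt hθ0 (by linarith)
  have h1 := h e he0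
  -- the length of the sums
  set n : ℕ → ℕ := fun d => ⌊(d : ℝ) ^ (θ + ε / 2)⌋₊ with hn
  have t := tendsto_natCast_atTop_atTop (R := ℝ)
  have hn' : Tendsto n atTop atTop :=
    tendsto_nat_floor_atTop.comp ((tendsto_rpow_atTop (by positivity)).comp t)
  have hb := t.eventually ((tendsto_rpow_atTop (show 0 < ε / 4 by positivity)).eventually_ge_atTop 2)
  obtain ⟨D, hD⟩ := eventually_atTop.1 ((hn'.eventually h1).and (hb.and (eventually_ge_atTop 2)))
  refine ⟨D, fun d hd a ha1 had haco => ?_⟩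
  obtain ⟨h2, h3, h4⟩ := hD d hd
  have hd2 : (2 : ℝ) ≤ d := by exact_mod_cast h4
  have hd0 : (0 : ℝ) < d := by linarith
  have hd1 : (1 : ℝ) ≤ d := by linarith
  set N : ℕ := n d with hNd
  have hX : (d : ℝ) ^ (θ + ε / 2) = (d : ℝ) ^ (θ + ε / 4) * (d : ℝ) ^ (ε / 4) := by
    rw [← Real.rpow_add hd0]
    congr 1
    ring
  have hp1 : 1 ≤ (d : ℝ) ^ (θ + ε / 4) := Real.one_le_rpow hd1 (by linarith)
  have hNlow : (d : ℝ) ^ (θ + ε / 4) ≤ N := by
    have h5 : (d : ℝ) ^ (θ + ε / 2) < (N : ℝ) + 1 := Nat.lt_floor_add_one _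
    rw [hX] at h5
    nlinarith
  have hNup : (N : ℝ) ≤ (d : ℝ) ^ (θ + ε / 2) := Nat.floor_le (by positivity)
  have hN0 : (0 : ℝ) < N := by linarith
  have hdN : (d : ℝ) ≤ (N : ℝ) ^ (ρ - e) := by
    have e1 : ρ - e = 1 / (θ + ε / 4) := by rw [he]; ring
    rw [e1]
    calc (d : ℝ) = ((d : ℝ) ^ (θ + ε / 4)) ^ (1 / (θ + ε / 4)) := by
          rw [← Real.rpow_mul hd0.le, mul_one_div_cancel (by linarith), Real.rpow_one]
      _ ≤ _ := Real.rpow_le_rpow (by positivity) hNlow (by positivity)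
  have h6 := h2 d (by omega) hdN a haco
  have h7 : 0 < ∑ p ∈ cls (N + 1) d a, w p := lt_of_lt_of_le (by positivity) h6
  obtain ⟨p, hp, hw⟩ : ∃ p ∈ cls (N + 1) d a, w p ≠ 0 := by
    by_contra hcon
    push Not at hcon
    rw [sum_eq_zero hcon] at h7
    exact lt_irrefl 0 h7
  rw [cls, mem_filter, mem_range] at hp
  obtain ⟨hpN, hpp, hpa⟩ := hp
  have hpm : p % d = a := by
    rw [Nat.ModEq, Nat.mod_eq_of_lt had] at hpa
    exact hpa
  have hpe : a + p / d * d = p := by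
    have := Nat.mod_add_div p d
    rw [hpm, mul_comm] at this
    exact this
  refine ⟨p / d, by rw [hpe]; exact hpp, by rw [hpe]; exact hT p hw, ?_⟩
  rw [hpe]
  have h8 : (p : ℝ) ≤ N := by exact_mod_cast (by omega : p ≤ N)
  have h9 : (d : ℝ) ^ (θ + ε / 2) < (d : ℝ) ^ (θ + ε) :=
    Real.rpow_lt_rpow_of_exponent_lt (by linarith) (by linarith)
  linarith

/-- the transfer -/
theorem transfer {w v : ℕ → ℝ} {κ ρ : ℝ} (hρ : ρ ≤ 1 - κ)
    (h : ∀ ε : ℝ, 0 < ε → ∀ᶠ N : ℕ in atTop, ∀ n ≤ N + 1, ∀ d : ℕ, 1 ≤ d → d ≤ N → ∀ l : ℕ,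
      |∑ p ∈ cls n d l, (w p - v p)| ≤
        (N : ℝ) ^ ε * (√((N : ℝ) ^ (1 + κ) / d) + (N : ℝ) ^ κ)) (hρ1 : ρ ≤ 1)
    (hv : Full v ρ 1) : Full w ρ 1 := by
  intro ε hε
  set e : ℝ := ε / 8 with he
  have he0 : 0 < e := by positivity
  have t := tendsto_natCast_atTop_atTop (R := ℝ)
  have hb := t.eventually ((tendsto_rpow_atTop (show 0 < ε / 4 by positivity)).eventually_ge_atTop 4)
  filter_upwards [hv e he0, h e he0, hb, eventually_ge_atTop 1] with N h1 h2 h3 hN1 d hd1 hdN l hl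
  have hNr : (1 : ℝ) ≤ N := by exact_mod_cast hN1
  have hNp : (0 : ℝ) < N := by linarith
  have hd0 : (0 : ℝ) < d := by exact_mod_cast hd1
  have hd1' : (1 : ℝ) ≤ d := by exact_mod_cast hd1
  have hdN1 : (d : ℝ) ≤ (N : ℝ) ^ (ρ - e) :=
    hdN.trans (Real.rpow_le_rpow_of_exponent_le hNr (by linarith))
  have hdNN : d ≤ N := by
    have : (d : ℝ) ≤ N := by
      calc (d : ℝ) ≤ (N : ℝ) ^ (ρ - ε) := hdN
        _ ≤ (N : ℝ) ^ (1 : ℝ) := Real.rpow_le_rpow_of_exponent_le hNr (by linarith)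
        _ = N := Real.rpow_one _
    exact_mod_cast this
  have h4 := h1 d hd1 hdN1 l hl
  have h5 := h2 (N + 1) le_rfl d hd1 hdNN l
  rw [sum_sub_distrib] at h5
  have hdκ : (d : ℝ) ≤ (N : ℝ) ^ (1 - κ - ε) :=
    hdN.trans (Real.rpow_le_rpow_of_exponent_le hNr (by linarith))
  -- the first part of the noise
  have hn1 : (N : ℝ) ^ e * (N : ℝ) ^ κ ≤ (N : ℝ) ^ (1 - e) / d / 4 := by
    rw [le_div_iff₀ (by norm_num), le_div_iff₀ hd0]
    calc (N : ℝ) ^ e * (N : ℝ) ^ κ * 4 * d ≤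
          (N : ℝ) ^ e * (N : ℝ) ^ κ * (N : ℝ) ^ (ε / 4) * (N : ℝ) ^ (1 - κ - ε) := by gcongr
      _ = (N : ℝ) ^ (1 - 4 * e - e) := by
          rw [← Real.rpow_add hNp, ← Real.rpow_add hNp, ← Real.rpow_add hNp]
          congr 1
          rw [he]
          ring
      _ ≤ _ := Real.rpow_le_rpow_of_exponent_le hNr (by linarith)
  have hn2 : (N : ℝ) ^ e * √((N : ℝ) ^ (1 + κ) / d) ≤ (N : ℝ) ^ (1 - e) / d / 4 := by
    have hsd : √(d : ℝ) ≤ (N : ℝ) ^ ((1 - κ - ε) / 2) := by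
      calc √(d : ℝ) ≤ √((N : ℝ) ^ (1 - κ - ε)) := Real.sqrt_le_sqrt hdκ
        _ = _ := by
            rw [Real.sqrt_eq_rpow, ← Real.rpow_mul hNp.le]
            congr 1
            ring
    have hsd0 : 0 < √(d : ℝ) := Real.sqrt_pos.2 hd0
    have hsd2 : √(d : ℝ) * √(d : ℝ) = d := Real.mul_self_sqrt hd0.le
    have hsN : √((N : ℝ) ^ (1 + κ)) = (N : ℝ) ^ ((1 + κ) / 2) := by
      rw [Real.sqrt_eq_rpow, ← Real.rpow_mul hNp.le]
      congr 1
      ring
    rw [Real.sqrt_div (by positivity), hsN, le_div_iff₀ (by norm_num), le_div_iff₀ hd0]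
    have e1 : (N : ℝ) ^ e * ((N : ℝ) ^ ((1 + κ) / 2) / √(d : ℝ)) * 4 * d =
        (N : ℝ) ^ e * (N : ℝ) ^ ((1 + κ) / 2) * 4 * √(d : ℝ) := by
      nth_rewrite 2 [← hsd2]
      field_simp
    rw [e1]
    calc (N : ℝ) ^ e * (N : ℝ) ^ ((1 + κ) / 2) * 4 * √(d : ℝ) ≤
          (N : ℝ) ^ e * (N : ℝ) ^ ((1 + κ) / 2) * (N : ℝ) ^ (ε / 4) *
            (N : ℝ) ^ ((1 - κ - ε) / 2) := by gcongr
      _ = (N : ℝ) ^ (1 - e) := by
          rw [← Real.rpow_add hNp, ← Real.rpow_add hNp, ← Real.rpow_add hNp]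
          congr 1
          rw [he]
          ring
  have h6 : (N : ℝ) ^ e * (√((N : ℝ) ^ (1 + κ) / d) + (N : ℝ) ^ κ) ≤ (N : ℝ) ^ (1 - e) / d / 2 := by
    rw [mul_add]
    linarith
  have h7 := (abs_le.1 (h5.trans h6)).1
  have h8 : (N : ℝ) ^ (1 - ε) / d ≤ (N : ℝ) ^ (1 - e) / d / 2 := by
    rw [div_right_comm]
    refine div_le_div_of_nonneg_right ?_ hd0.le
    rw [le_div_iff₀ (by norm_num)]
    have h10 : (2 : ℝ) ≤ (N : ℝ) ^ (ε / 4) := by linarith
    calc (N : ℝ) ^ (1 - ε) * 2 ≤ (N : ℝ) ^ (1 - ε) * (N : ℝ) ^ (ε / 4) :=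
          mul_le_mul_of_nonneg_left h10 (by positivity)
      _ = (N : ℝ) ^ (1 - 6 * e) := by
          rw [← Real.rpow_add hNp]
          congr 1
          rw [he]
          ring
      _ ≤ _ := Real.rpow_le_rpow_of_exponent_le hNr (by linarith)
  linarith

/-- the number of elements -/
theorem rep_size {T : Set ℕ} [DecidablePred (· ∈ T)] {θ : ℝ} (hθ : 0 < θ) (h : Rep T θ) {ε : ℝ}
    (hε : 0 < ε) : ∀ᶠ N : ℕ in atTop,
      (N : ℝ) ^ (1 / θ - ε) ≤ (((Icc 1 N).filter fun p => p.Prime ∧ p ∈ T).card : ℝ) := by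
  have h1 := rep_full hθ h (min ε (1 / θ)) (lt_min hε (by positivity))
  filter_upwards [h1, eventually_ge_atTop 1] with N hN hN1
  have hNr : (1 : ℝ) ≤ N := by exact_mod_cast hN1
  have h2 := hN 1 le_rfl (by
    rw [Nat.cast_one]
    exact Real.one_le_rpow hNr (by linarith [min_le_right ε (1 / θ)])) 1 (Nat.coprime_one_left 1)
  rw [Nat.cast_one, div_one] at h2
  have h3 : ∑ p ∈ cls (N + 1) 1 1, (if p ∈ T then (1 : ℝ) else 0) =
      (((Icc 1 N).filter fun p => p.Prime ∧ p ∈ T).card : ℝ) := by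
    rw [← sum_filter, sum_const, nsmul_eq_mul, mul_one]
    congr 2
    ext p
    rw [mem_filter, cls, mem_filter, mem_range, mem_filter, mem_Icc]
    constructor
    · rintro ⟨⟨a, b, _⟩, c⟩
      exact ⟨⟨b.one_le, by omega⟩, b, c⟩
    · rintro ⟨⟨a, b⟩, c, e⟩
      exact ⟨⟨by omega, c, Nat.modEq_one⟩, e⟩
  rw [h3] at h2
  refine le_trans ?_ h2
  exact Real.rpow_le_rpow_of_exponent_le hNr (by linarith [min_le_left ε (1 / θ)])

end Pool.Agent.H564.CH
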