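import Pool.Agent.H564.CH.Prob
import Pool.Agent.H564.SC.Exist

/-! Random samples of the primes and least primes in progressions. -/

set_option autoImplicit false

namespace Pool.Agent.H564.CH

open Filter Topology MeasureTheory ProbabilityTheory Classical
open Pool.Agent.H564.BSD (wt)
open Pool.Agent.H564.SP (Dens)
open Pool.Agent.H564.LD (cls cls_card noise_cls)

/-- the number of primes `p ≤ N` in `T` -/
noncomputable def size (T : Set ℕ) (N : ℕ) : ℕ :=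
  ((Finset.Icc 1 N).filter fun p => p.Prime ∧ p ∈ T).card

/-- the indicator function -/
noncomputable def ind (T : Set ℕ) (p : ℕ) : ℝ := if p ∈ T then 1 else 0

/-- The properties of a sample `S` of the primes with weights `w`. -/
def Sample (S : Set ℕ) (w : ℕ → ℝ) (κ : ℝ) : Prop :=
  (∀ ε : ℝ, 0 < ε → ∀ᶠ N : ℕ in atTop, (size S N : ℝ) ≤ (N : ℝ) ^ (1 - κ + ε)) ∧
  (∀ ρ : ℝ, ρ ≤ 1 - κ → (Full w ρ 1 ↔ Full (fun _ => 1) ρ 1)) ∧
  (∀ ε : ℝ, 0 < ε → ∀ᶠ N : ℕ in atTop, ∀ d : ℕ, 1 ≤ d → d ≤ N → ∀ l : ℕ,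
    (N : ℝ) ^ (κ + ε) ≤ ((cls (N + 1) d l).card : ℝ) →
    (N : ℝ) ^ (-κ - ε) * ((cls (N + 1) d l).card : ℝ) ≤
      (((cls (N + 1) d l).filter (· ∈ S)).card : ℝ)) ∧
  (∀ θ : ℝ, 1 ≤ θ → κ * θ < 1 → Rep Set.univ θ → Rep S (θ / (1 - κ * θ))) ∧
  (∀ θ : ℝ, 0 < θ → θ < 1 / (1 - κ) → ¬ Rep S θ)

theorem rep_full' {T : Set ℕ} {θ : ℝ} (hθ : 0 < θ) (h : Rep T θ) : Full (ind T) (1 / θ) (1 / θ) :=
  rep_full hθ h

theorem rep_size' {T : Set ℕ} {θ : ℝ} (hθ : 0 < θ) (h : Rep T θ) {ε : ℝ} (hε : 0 < ε) :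
    ∀ᶠ N : ℕ in atTop, (N : ℝ) ^ (1 / θ - ε) ≤ (size T N : ℝ) :=
  rep_size hθ h hε

theorem ind_univ : ind Set.univ = fun _ => 1 := by
  funext p
  unfold ind
  rw [if_pos (Set.mem_univ p)]

theorem chowla_iff : Rep Set.univ 1 ↔ Full (fun _ => 1) 1 1 := by
  constructor
  · intro h
    have := rep_full' one_pos h
    rwa [ind_univ, div_one] at this
  · intro h
    have := full_rep (T := Set.univ) (fun p _ => Set.mem_univ p) one_pos h
    rwa [div_one] at this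

variable {Ω : Type*} [mΩ : MeasurableSpace Ω] {μ : Measure Ω} [IsProbabilityMeasure μ]
  {A : ℕ → Set Ω} {δ : ℕ → ℝ} {κ : ℝ}

theorem almost_surely (hA : ∀ p, MeasurableSet (A p)) (hind : iIndepSet A μ)
    (hδ0 : ∀ p, 0 < δ p) (hμ : ∀ p, μ (A p) = ENNReal.ofReal (δ p))
    (hκ0 : 0 ≤ κ) (hκ1 : κ < 1)
    (hd : ∀ ε : ℝ, 0 < ε → ∀ᶠ p : ℕ in atTop, p.Prime →
      (p : ℝ) ^ (-κ - ε) ≤ δ p ∧ δ p ≤ (p : ℝ) ^ (-κ + ε)) :
    ∀ᵐ ω ∂μ, Sample {p | ω ∈ A p} (fun p => if ω ∈ A p then 1 / δ p else 0) κ := by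
  have hδ1 : ∀ p, δ p ≤ 1 := by
    intro p
    have h1 : μ (A p) ≤ 1 := prob_le_one
    rw [hμ p, ENNReal.ofReal_le_one] at h1
    exact h1
  set η : ℝ := κ / 2 with hη
  have hκη : κ = 2 * η := by rw [hη]; ring
  have hη0 : 0 ≤ η := by rw [hη]; linarith
  have hη1 : η < 1 / 2 := by rw [hη]; linarith
  have hd' : Dens δ η := by
    intro ε hε
    filter_upwards [hd ε hε] with p hp h
    rw [← hκη]
    exact hp h
  filter_upwards [Pool.Agent.H564.SP.count_up hA hind hδ0 hδ1 hμ hη0 hη1 hd',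
    noise_cls hA hind hδ0 hδ1 hμ hη0 hd', count_cls' hA hind hδ0 hμ hη0 hd'] with ω h1 h2 h3
  have e : (fun p => if ω ∈ A p then 1 / δ p else 0) = wt A δ ω := rfl
  rw [e]
  rw [← hκη] at h1 h2 h3
  set S : Set ℕ := {p | ω ∈ A p} with hS
  have hcount : ∀ ε : ℝ, 0 < ε → ∀ᶠ N : ℕ in atTop, (size S N : ℝ) ≤ (N : ℝ) ^ (1 - κ + ε) := by
    intro ε hε
    filter_upwards [tendsto_natCast_atTop_atTop.eventually (h1 ε hε)] with N hN
    rw [Nat.floor_natCast] at hN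
    refine le_trans ?_ hN
    have : ((Finset.Icc 1 N).filter fun p => p.Prime ∧ p ∈ S) ⊆
        (Finset.range (N + 1)).filter fun p => p.Prime ∧ ω ∈ A p := by
      intro p hp
      rw [Finset.mem_filter, Finset.mem_Icc] at hp
      rw [Finset.mem_filter, Finset.mem_range]
      exact ⟨by omega, hp.2.1, hp.2.2⟩
    exact_mod_cast Finset.card_le_card this
  have htr : ∀ ρ : ℝ, ρ ≤ 1 - κ → (Full (wt A δ ω) ρ 1 ↔ Full (fun _ => 1) ρ 1) := by
    intro ρ hρ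
    constructor
    · refine transfer hρ (fun ε hε => ?_) (by linarith)
      filter_upwards [h2 ε hε] with N hN n hn d hd1 hdN l
      have h4 := hN n hn d hd1 hdN l
      rw [← abs_neg, ← Finset.sum_neg_distrib] at h4
      simpa only [neg_sub] using h4
    · exact transfer hρ h2 (by linarith)
  have h3' : ∀ ε : ℝ, 0 < ε → ∀ᶠ N : ℕ in atTop, ∀ d : ℕ, 1 ≤ d → d ≤ N → ∀ l : ℕ,
    (N : ℝ) ^ (κ + ε) ≤ ((cls (N + 1) d l).card : ℝ) →
    (N : ℝ) ^ (-κ - ε) * ((cls (N + 1) d l).card : ℝ) ≤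
      (((cls (N + 1) d l).filter (· ∈ S)).card : ℝ) := h3
  refine ⟨hcount, htr, h3', ?_, ?_⟩
  · intro θ hθ hκθ hrep
    have hθ0 : 0 < θ := by linarith
    have hfull := rep_full' hθ0 hrep
    rw [ind_univ] at hfull
    set ρ : ℝ := 1 / θ - κ with hρ
    have hρ0 : 0 < ρ := by
      rw [hρ, sub_pos, lt_div_iff₀ hθ0]
      exact hκθ
    have hρ1 : ρ ≤ 1 := by
      have : 1 / θ ≤ 1 := by rw [div_le_one hθ0]; exact hθ
      linarith
    have hF : Full (ind S) ρ ρ := by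
      intro ε hε
      filter_upwards [hfull (ε / 2) (by positivity), h3' (ε / 2) (by positivity),
        eventually_ge_atTop 1] with N a1 a2 hN1 d hd1 hdN l hl
      have hNr : (1 : ℝ) ≤ N := by exact_mod_cast hN1
      have hNp : (0 : ℝ) < N := by linarith
      have hd0 : (0 : ℝ) < d := by exact_mod_cast hd1
      have hdN' : (d : ℝ) ≤ (N : ℝ) ^ (1 / θ - ε / 2) :=
        hdN.trans (Real.rpow_le_rpow_of_exponent_le hNr (by rw [hρ]; linarith))
      have hdNN : d ≤ N := by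
        have : (d : ℝ) ≤ N := by
          calc (d : ℝ) ≤ (N : ℝ) ^ (ρ - ε) := hdN
            _ ≤ (N : ℝ) ^ (1 : ℝ) := Real.rpow_le_rpow_of_exponent_le hNr (by linarith)
            _ = N := Real.rpow_one _
        exact_mod_cast this
      have a3 := a1 d hd1 hdN' l hl
      rw [Finset.sum_const, nsmul_eq_mul, mul_one] at a3
      have a4 : (N : ℝ) ^ (κ + ε / 2) ≤ (N : ℝ) ^ (1 / θ - ε / 2) / d := by
        rw [le_div_iff₀ hd0]
        calc (N : ℝ) ^ (κ + ε / 2) * d ≤ (N : ℝ) ^ (κ + ε / 2) * (N : ℝ) ^ (ρ - ε) :=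
              mul_le_mul_of_nonneg_left hdN (by positivity)
          _ = _ := by
              rw [← Real.rpow_add hNp, hρ]
              congr 1
              ring
      have a5 := a2 d hd1 hdNN l (a4.trans a3)
      have a6 : ∑ p ∈ cls (N + 1) d l, ind S p =
          (((cls (N + 1) d l).filter (· ∈ S)).card : ℝ) := by
        unfold ind
        rw [← Finset.sum_filter, Finset.sum_const, nsmul_eq_mul, mul_one]
      rw [a6]
      refine le_trans ?_ a5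
      calc (N : ℝ) ^ (ρ - ε) / d = (N : ℝ) ^ (-κ - ε / 2) * ((N : ℝ) ^ (1 / θ - ε / 2) / d) := by
            rw [← mul_div_assoc, ← Real.rpow_add hNp, hρ]
            congr 2
            ring
        _ ≤ _ := mul_le_mul_of_nonneg_left a3 (by positivity)
    have := full_rep (T := S) (fun p hp => by
      unfold ind at hp
      by_contra hcon
      rw [if_neg hcon] at hp
      exact hp rfl) hρ0 hF
    have e1 : 1 / ρ = θ / (1 - κ * θ) := by
      rw [hρ]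
      have h5 : (1 - κ * θ) ≠ 0 := by linarith
      have h6 : 1 / θ - κ ≠ 0 := by rw [← hρ]; exact hρ0.ne'
      rw [div_eq_div_iff h6 h5]
      field_simp
    rwa [e1] at this
  · intro θ hθ0 hθ1 hrep
    have hκ' : 0 < 1 - κ := by linarith
    have hgap : 1 - κ < 1 / θ := by
      rw [lt_div_iff₀ hθ0]
      rw [lt_div_iff₀ hκ'] at hθ1
      linarith
    set ε : ℝ := (1 / θ - (1 - κ)) / 4 with hε
    have hε0 : 0 < ε := by rw [hε]; linarith
    obtain ⟨N, b1, b2, hN⟩ := ((rep_size' hθ0 hrep hε0).and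
      ((hcount ε hε0).and (eventually_ge_atTop 2))).exists
    have hN2 : (1 : ℝ) < N := by exact_mod_cast hN
    have h7 := (Real.rpow_le_rpow_left_iff hN2).1 (b1.trans b2)
    rw [hε] at h7
    linarith

theorem exists_sample {κ : ℝ} (hκ0 : 0 ≤ κ) (hκ1 : κ < 1) :
    ∃ (S : Set ℕ) (w : ℕ → ℝ), Sample S w κ := by
  have h0 : (0 : ℝ) ≤ κ / 2 := by linarith
  have h := almost_surely (μ := Pool.Agent.H564.SC.prodm) (κ := κ)
    (Pool.Agent.H564.SC.ev_meas (Pool.Agent.H564.SC.del (κ / 2)))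
    (Pool.Agent.H564.SC.ev_indep (fun p => (Pool.Agent.H564.SC.del_pos (κ / 2) p).le)
      (Pool.Agent.H564.SC.del_le h0))
    (Pool.Agent.H564.SC.del_pos (κ / 2))
    (Pool.Agent.H564.SC.ev_prob (fun p => (Pool.Agent.H564.SC.del_pos (κ / 2) p).le)
      (Pool.Agent.H564.SC.del_le h0)) hκ0 hκ1 (by
        intro ε hε
        have h1 := Pool.Agent.H564.SC.del_dens (κ / 2) ε hε
        rw [show 2 * (κ / 2) = κ by ring] at h1
        exact h1)
  obtain ⟨ω, hω⟩ := h.exists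
  exact ⟨_, _, hω⟩

/-- from an exponent `θ₀` for the primes to thin sets of primes -/
theorem exists_thin {θ₀ θ : ℝ} (hθ₀ : 1 ≤ θ₀) (hθ : θ₀ ≤ θ) (h : Rep Set.univ θ₀) :
    ∃ T : Set ℕ, (∀ ε : ℝ, 0 < ε → ∀ᶠ N : ℕ in atTop,
      (size T N : ℝ) ≤ (N : ℝ) ^ (1 - 1 / θ₀ + 1 / θ + ε)) ∧ Rep T θ := by
  have h0 : 0 < θ₀ := by linarith
  have h1 : 0 < θ := by linarith
  set κ : ℝ := 1 / θ₀ - 1 / θ with hκ
  have hκ0 : 0 ≤ κ := by
    rw [hκ, sub_nonneg]
    exact one_div_le_one_div_of_le h0 hθ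
  have hκ1 : κ < 1 := by
    have h2 : 1 / θ₀ ≤ 1 := by rw [div_le_one h0]; exact hθ₀
    have h3 : 0 < 1 / θ := by positivity
    linarith
  obtain ⟨S, w, s1, _, _, s4, _⟩ := exists_sample hκ0 hκ1
  have e1 : 1 - κ * θ₀ = θ₀ / θ := by
    rw [hκ]
    field_simp
    ring
  refine ⟨S, fun ε hε => ?_, ?_⟩
  · have := s1 ε hε
    rw [show 1 - κ = 1 - 1 / θ₀ + 1 / θ by rw [hκ]; ring] at this
    exact this
  · have h4 := s4 θ₀ hθ₀ (by
      have : 0 < θ₀ / θ := by positivity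
      linarith) h
    rw [e1, show θ₀ / (θ₀ / θ) = θ by field_simp] at h4
    exact h4

/-- **Chowla's conjecture and the sizes of representing sets.** -/
theorem chowla_sizes : Rep Set.univ 1 ↔ ∀ θ : ℝ, 1 < θ → ∃ T : Set ℕ,
    (∀ ε : ℝ, 0 < ε → ∀ᶠ N : ℕ in atTop, (size T N : ℝ) ≤ (N : ℝ) ^ (1 / θ + ε)) ∧ Rep T θ := by
  constructor
  · intro h θ hθ
    obtain ⟨T, h1, h2⟩ := exists_thin le_rfl hθ.le h
    refine ⟨T, fun ε hε => ?_, h2⟩
    have := h1 ε hε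
    rw [div_one, sub_self, zero_add] at this
    exact this
  · intro h ε hε
    obtain ⟨T, _, hT⟩ := h (1 + ε / 2) (by linarith)
    obtain ⟨D, hD⟩ := hT (ε / 2) (by linarith)
    refine ⟨D, fun d hd a ha1 had haco => ?_⟩
    obtain ⟨k, hk1, _, hk3⟩ := hD d hd a ha1 had haco
    refine ⟨k, hk1, Set.mem_univ _, ?_⟩
    rwa [show 1 + ε / 2 + ε / 2 = 1 + ε by ring] at hk3

end Pool.Agent.H564.CH
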