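import Pool.Agent.H564.CH.Det

/-! Numbers of sampled primes in all residue classes. -/

set_option autoImplicit false

namespace Pool.Agent.H564.CH

open Finset Filter Topology MeasureTheory ProbabilityTheory Classical
open Pool.Agent.H564.SP (Dens)
open Pool.Agent.H564.LD (cls cls_card cls_mod)

variable {Ω : Type*} [mΩ : MeasurableSpace Ω] {μ : Measure Ω} [IsProbabilityMeasure μ]
  {A : ℕ → Set Ω} {δ : ℕ → ℝ} {η : ℝ}

/-- the number of the sampled elements of `s` -/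
noncomputable def num (A : ℕ → Set Ω) (s : Finset ℕ) (ω : Ω) : ℝ :=
  ∑ i ∈ s, (A i).indicator (fun _ => (1 : ℝ)) ω

theorem num_eq (A : ℕ → Set Ω) (s : Finset ℕ) (ω : Ω) :
    num A s ω = ((s.filter fun i => ω ∈ A i).card : ℝ) := by
  unfold num
  rw [card_filter]
  push_cast
  refine sum_congr rfl fun i _ => ?_
  rw [Set.indicator_apply]

theorem mgf_num (hA : ∀ p, MeasurableSet (A p)) (hind : iIndepSet A μ)
    (hδ0 : ∀ p, 0 < δ p) (hμ : ∀ p, μ (A p) = ENNReal.ofReal (δ p)) (c : ℝ) (s : Finset ℕ) :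
    mgf (num A s) μ c ≤ Real.exp ((Real.exp c - 1) * ∑ i ∈ s, δ i) := by
  have hξi : iIndepFun (fun n => (A n).indicator fun _ => (1 : ℝ)) μ := hind.iIndepFun_indicator
  have hξm : ∀ n, Measurable ((A n).indicator fun _ => (1 : ℝ)) :=
    fun n => measurable_const.indicator (hA n)
  have h1 : mgf (num A s) μ c = ∏ i ∈ s, mgf ((A i).indicator fun _ => (1 : ℝ)) μ c := by
    rw [← hξi.mgf_sum hξm s]
    congr 1
    ext ω
    rw [num, Finset.sum_apply]
  have h2 : ∀ i, mgf ((A i).indicator fun _ => (1 : ℝ)) μ c = 1 + (Real.exp c - 1) * δ i := by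
    intro i
    have hreal : μ.real (A i) = δ i := by
      rw [measureReal_def, hμ, ENNReal.toReal_ofReal (hδ0 i).le]
    have e : ∀ ω, Real.exp (c * (A i).indicator (fun _ => (1 : ℝ)) ω) =
        1 + (Real.exp c - 1) * (A i).indicator (fun _ => (1 : ℝ)) ω := by
      intro ω
      by_cases h : ω ∈ A i
      · rw [Set.indicator_of_mem h]
        simp
      · rw [Set.indicator_of_notMem h]
        simp
    rw [mgf]
    simp_rw [e]
    have hint : Integrable (fun ω => (Real.exp c - 1) * (A i).indicator (fun _ => (1 : ℝ)) ω) μ :=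
      ((integrable_const (1 : ℝ)).indicator (hA i)).const_mul _
    rw [integral_add (integrable_const _) hint, integral_const_mul,
      integral_indicator_const _ (hA i), hreal]
    simp
  have hδ1 : ∀ p, δ p ≤ 1 := by
    intro p
    have h1 : μ (A p) ≤ 1 := prob_le_one
    rw [hμ p, ENNReal.ofReal_le_one] at h1
    exact h1
  rw [h1, mul_sum, Real.exp_sum]
  refine prod_le_prod (fun i _ => ?_) fun i _ => ?_
  · exact mgf_nonneg
  · rw [h2 i]
    have := Real.add_one_le_exp ((Real.exp c - 1) * δ i)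
    linarith

theorem num_meas (hA : ∀ p, MeasurableSet (A p)) (s : Finset ℕ) : Measurable (num A s) := by
  unfold num
  exact Finset.measurable_sum _ fun i _ => measurable_const.indicator (hA i)

theorem num_nonneg (A : ℕ → Set Ω) (s : Finset ℕ) (ω : Ω) : 0 ≤ num A s ω := by
  rw [num_eq]
  exact Nat.cast_nonneg _

theorem num_le (A : ℕ → Set Ω) (s : Finset ℕ) (ω : Ω) : num A s ω ≤ s.card := by
  rw [num_eq]
  exact_mod_cast card_filter_le _ _

theorem lower_tail (hA : ∀ p, MeasurableSet (A p)) (hind : iIndepSet A μ)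
    (hδ0 : ∀ p, 0 < δ p) (hμ : ∀ p, μ (A p) = ENNReal.ofReal (δ p)) (s : Finset ℕ) :
    μ.real {ω | num A s ω ≤ (∑ i ∈ s, δ i) / 4} ≤ Real.exp (-((∑ i ∈ s, δ i) / 4)) := by
  have hint : Integrable (fun ω => Real.exp (-1 * num A s ω)) μ := by
    refine Integrable.of_bound (C := 1) ?_ ?_
    · exact ((num_meas hA s).const_mul _).exp.aestronglyMeasurable
    · refine ae_of_all _ fun ω => ?_
      rw [Real.norm_of_nonneg (Real.exp_nonneg _), Real.exp_le_one_iff]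
      linarith [num_nonneg A s ω]
  refine (measure_le_le_exp_mul_mgf ((∑ i ∈ s, δ i) / 4) (by norm_num : (-1 : ℝ) ≤ 0) hint).trans ?_
  have h1 := mgf_num hA hind hδ0 hμ (-1) s
  have hΛ : 0 ≤ ∑ i ∈ s, δ i := sum_nonneg fun i _ => (hδ0 i).le
  calc Real.exp (-(-1) * ((∑ i ∈ s, δ i) / 4)) * mgf (num A s) μ (-1) ≤
        Real.exp (-(-1) * ((∑ i ∈ s, δ i) / 4)) *
          Real.exp ((Real.exp (-1) - 1) * ∑ i ∈ s, δ i) :=
        mul_le_mul_of_nonneg_left h1 (Real.exp_nonneg _)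
    _ ≤ _ := by
        rw [← Real.exp_add]
        refine Real.exp_le_exp.2 ?_
        have h2 : Real.exp (-1) ≤ 1 / 2 := by
          have := Real.exp_neg_one_lt_d9
          linarith
        nlinarith

theorem count_cls (hA : ∀ p, MeasurableSet (A p)) (hind : iIndepSet A μ)
    (hδ0 : ∀ p, 0 < δ p) (hμ : ∀ p, μ (A p) = ENNReal.ofReal (δ p)) :
    ∀ᵐ ω ∂μ, ∀ᶠ N : ℕ in atTop, ∀ n ≤ N + 1, ∀ d : ℕ, 1 ≤ d → d ≤ N → ∀ l : ℕ,
      20 * Real.log ((N : ℝ) + 2) ≤ ∑ p ∈ cls n d l, δ p →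
      (∑ p ∈ cls n d l, δ p) / 4 < (((cls n d l).filter fun p => ω ∈ A p).card : ℝ) := by
  set E : ℕ → Set Ω := fun N => ⋃ i : Fin (N + 2) × Fin N × Fin N,
      (if 20 * Real.log ((N : ℝ) + 2) ≤ ∑ p ∈ cls i.1 (i.2.1 + 1) i.2.2, δ p then
        {ω | num A (cls i.1 (i.2.1 + 1) i.2.2) ω ≤ (∑ p ∈ cls i.1 (i.2.1 + 1) i.2.2, δ p) / 4}
        else ∅) with hE
  have hEμ : ∀ N, μ (E N) ≤ ENNReal.ofReal ((((N : ℝ) + 2) ^ 2)⁻¹) := by
    intro N
    have h0 : (0 : ℝ) < (N : ℝ) + 2 := by positivity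
    set b : ℝ := (((N : ℝ) + 2) ^ 5)⁻¹ with hb
    have hb0 : 0 ≤ b := by positivity
    have hexp : Real.exp (-(5 * Real.log ((N : ℝ) + 2))) = b := by
      rw [hb, Real.exp_neg, mul_comm, Real.exp_mul, Real.exp_log h0, ← Real.rpow_natCast]
      norm_num
    refine (measure_iUnion_fintype_le _ _).trans ?_
    have h4 : ∀ i : Fin (N + 2) × Fin N × Fin N,
        μ (if 20 * Real.log ((N : ℝ) + 2) ≤ ∑ p ∈ cls i.1 (i.2.1 + 1) i.2.2, δ p then
        {ω | num A (cls i.1 (i.2.1 + 1) i.2.2) ω ≤ (∑ p ∈ cls i.1 (i.2.1 + 1) i.2.2, δ p) / 4}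
        else ∅) ≤ ENNReal.ofReal b := by
      intro i
      split_ifs with hi
      · rw [← ofReal_measureReal]
        refine ENNReal.ofReal_le_ofReal ?_
        refine (lower_tail hA hind hδ0 hμ _).trans ?_
        rw [← hexp]
        refine Real.exp_le_exp.2 ?_
        linarith
      · simp
    refine (sum_le_sum fun i _ => h4 i).trans ?_
    rw [sum_const, card_univ, nsmul_eq_mul, ← ENNReal.ofReal_natCast, ← ENNReal.ofReal_mul
      (Nat.cast_nonneg _)]
    refine ENNReal.ofReal_le_ofReal ?_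
    have h5 : (Fintype.card (Fin (N + 2) × Fin N × Fin N) : ℝ) ≤ ((N : ℝ) + 2) ^ 3 := by
      rw [Fintype.card_prod, Fintype.card_prod, Fintype.card_fin, Fintype.card_fin]
      push_cast
      have hN : (0 : ℝ) ≤ N := Nat.cast_nonneg N
      have : (N : ℝ) * N ≤ ((N : ℝ) + 2) ^ 2 := by nlinarith
      calc ((N : ℝ) + 2) * (N * N) ≤ ((N : ℝ) + 2) * ((N : ℝ) + 2) ^ 2 :=
            mul_le_mul_of_nonneg_left this (by positivity)
        _ = _ := by ring
    calc (Fintype.card (Fin (N + 2) × Fin N × Fin N) : ℝ) * b ≤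
          ((N : ℝ) + 2) ^ 3 * b := mul_le_mul_of_nonneg_right h5 (by positivity)
      _ = _ := by
          rw [hb]
          field_simp
  have hsum : ∑' x, μ (E x) ≠ ⊤ := by
    have h4 : Summable fun N : ℕ => (((N : ℝ) + 2) ^ 2)⁻¹ := by
      have := (summable_nat_add_iff 2).2 (Real.summable_nat_pow_inv.2 (by norm_num : 1 < 2))
      simpa using this
    exact ne_top_of_le_ne_top h4.tsum_ofReal_ne_top (ENNReal.tsum_le_tsum hEμ)
  filter_upwards [ae_eventually_notMem hsum] with ω hω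
  filter_upwards [hω] with N hN n hn d hd1 hdN l hΛ
  have hl : l % d < d := Nat.mod_lt _ hd1
  rw [cls_mod] at hΛ ⊢
  simp only [hE, Set.mem_iUnion, not_exists] at hN
  have h1 := hN (⟨n, by omega⟩, ⟨d - 1, by omega⟩, ⟨l % d, by omega⟩)
  simp only [Nat.sub_add_cancel hd1] at h1
  rw [if_pos hΛ, Set.mem_ofPred_eq, not_le, num_eq] at h1
  exact h1

/-- **Sampled primes in all classes with many primes.** -/
theorem count_cls' (hA : ∀ p, MeasurableSet (A p)) (hind : iIndepSet A μ)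
    (hδ0 : ∀ p, 0 < δ p) (hμ : ∀ p, μ (A p) = ENNReal.ofReal (δ p))
    (hη : 0 ≤ η) (hd : Dens δ η) :
    ∀ᵐ ω ∂μ, ∀ ε : ℝ, 0 < ε → ∀ᶠ N : ℕ in atTop, ∀ d : ℕ, 1 ≤ d → d ≤ N → ∀ l : ℕ,
      (N : ℝ) ^ (2 * η + ε) ≤ ((cls (N + 1) d l).card : ℝ) →
      (N : ℝ) ^ (-(2 * η) - ε) * ((cls (N + 1) d l).card : ℝ) ≤
        (((cls (N + 1) d l).filter fun p => ω ∈ A p).card : ℝ) := by
  filter_upwards [count_cls hA hind hδ0 hμ] with ω hω ε hε
  obtain ⟨C, hC0, hC⟩ := hd.inv_le hδ0 hη (show 0 < ε / 4 by positivity)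
  have t := tendsto_natCast_atTop_atTop (R := ℝ)
  have t1 : Tendsto (fun N : ℕ => (N : ℝ) + 2) atTop atTop :=
    tendsto_atTop_add_const_right _ _ t
  have h1 := t1.eventually ((isLittleO_log_rpow_atTop (show 0 < ε / 4 by positivity)).bound
    (show (0 : ℝ) < 1 by norm_num))
  have hb := t.eventually ((tendsto_rpow_atTop (show 0 < ε / 4 by positivity)).eventually_ge_atTop
    (20 * 3 ^ (ε / 4) + 4 * C + 4))
  filter_upwards [hω, h1, hb, eventually_ge_atTop 1] with N hN h1 h2 hN1 d hd1 hdN l hmany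
  have hNr : (1 : ℝ) ≤ N := by exact_mod_cast hN1
  have hNp : (0 : ℝ) < N := by linarith
  have hlog : 0 ≤ Real.log ((N : ℝ) + 2) := Real.log_nonneg (by linarith)
  rw [Real.norm_of_nonneg hlog, one_mul, Real.norm_of_nonneg (by positivity)] at h1
  have h3 : ((N : ℝ) + 2) ^ (ε / 4) ≤ 3 ^ (ε / 4) * (N : ℝ) ^ (ε / 4) := by
    rw [← Real.mul_rpow (by norm_num) hNp.le]
    exact Real.rpow_le_rpow (by positivity) (by linarith) (by positivity)
  have h3p : (0 : ℝ) < 3 ^ (ε / 4) := by positivity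
  set c : ℝ := ((cls (N + 1) d l).card : ℝ) with hc
  have hΛ : (N : ℝ) ^ (-(2 * η) - ε / 4) / C * c ≤ ∑ p ∈ cls (N + 1) d l, δ p := by
    have h4 : ∀ p ∈ cls (N + 1) d l, (N : ℝ) ^ (-(2 * η) - ε / 4) / C ≤ δ p := by
      intro p hp
      rw [cls, mem_filter, mem_range] at hp
      have h5 := hC p hp.2.1
      have hp1 : (0 : ℝ) < p := by exact_mod_cast hp.2.1.pos
      have hpN : (p : ℝ) ≤ N := by exact_mod_cast (by omega : p ≤ N)
      have h6 : (p : ℝ) ^ (2 * η + ε / 4) ≤ (N : ℝ) ^ (2 * η + ε / 4) :=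
        Real.rpow_le_rpow hp1.le hpN (by linarith)
      rw [div_le_iff₀ (hδ0 p)] at h5
      have e1 : (N : ℝ) ^ (-(2 * η) - ε / 4) = ((N : ℝ) ^ (2 * η + ε / 4))⁻¹ := by
        rw [← Real.rpow_neg hNp.le]
        congr 1
        ring
      rw [e1, div_le_iff₀ hC0, inv_le_iff_one_le_mul₀ (by positivity)]
      have := hδ0 p
      calc (1 : ℝ) ≤ C * (p : ℝ) ^ (2 * η + ε / 4) * δ p := h5
        _ ≤ C * (N : ℝ) ^ (2 * η + ε / 4) * δ p := by gcongr
        _ = _ := by ring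
    have := card_nsmul_le_sum _ _ _ h4
    rw [nsmul_eq_mul] at this
    linarith
  have hc0 : 0 ≤ c := Nat.cast_nonneg _
  have h4C : 4 * C ≤ (N : ℝ) ^ (ε / 4) := by linarith
  have hsplit : (N : ℝ) ^ (-(2 * η) - ε / 4) =
      (N : ℝ) ^ (-(2 * η) - ε / 2) * (N : ℝ) ^ (ε / 4) := by
    rw [← Real.rpow_add hNp]
    congr 1
    ring
  have hΛ2 : (N : ℝ) ^ (-(2 * η) - ε / 2) * c * 4 ≤ ∑ p ∈ cls (N + 1) d l, δ p := by
    refine le_trans ?_ hΛ
    rw [hsplit, div_mul_eq_mul_div, le_div_iff₀ hC0]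
    have h7 : 0 ≤ (N : ℝ) ^ (-(2 * η) - ε / 2) * c := by positivity
    nlinarith
  have hlog20 : 20 * Real.log ((N : ℝ) + 2) ≤ ∑ p ∈ cls (N + 1) d l, δ p := by
    refine le_trans ?_ hΛ2
    have h8 : (N : ℝ) ^ (ε / 2) ≤ (N : ℝ) ^ (-(2 * η) - ε / 2) * c := by
      calc (N : ℝ) ^ (ε / 2) = (N : ℝ) ^ (-(2 * η) - ε / 2) * (N : ℝ) ^ (2 * η + ε) := by
            rw [← Real.rpow_add hNp]
            congr 1
            ring
        _ ≤ _ := mul_le_mul_of_nonneg_left hmany (by positivity)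
    have h9 : (N : ℝ) ^ (ε / 2) = (N : ℝ) ^ (ε / 4) * (N : ℝ) ^ (ε / 4) := by
      rw [← Real.rpow_add hNp]
      congr 1
      ring
    have h10 : 20 * 3 ^ (ε / 4) * (N : ℝ) ^ (ε / 4) ≤ (N : ℝ) ^ (ε / 4) * (N : ℝ) ^ (ε / 4) :=
      mul_le_mul_of_nonneg_right (by linarith) (by positivity)
    linarith
  have h11 := hN (N + 1) le_rfl d hd1 hdN l hlog20
  have h12 : (N : ℝ) ^ (-(2 * η) - ε) ≤ (N : ℝ) ^ (-(2 * η) - ε / 2) :=
    Real.rpow_le_rpow_of_exponent_le hNr (by linarith)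
  have h13 := mul_le_mul_of_nonneg_right h12 hc0
  linarith

end Pool.Agent.H564.CH
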